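import Pool.Agent.V5helper73.SZ.StmC

/-! # Project SZ: the coefficients of the root transforms -/

set_option autoImplicit false
open Complex Metric Set Filter Topology MeasureTheory
open V5helper73.SZ V5helper73.GC

namespace V5helper86.SZ

lemma low_bound (h3 : S_TWO) {f : ℂ → ℂ} (hf : InS f) {v : ℂ} (hv : v ∈ ball (0:ℂ) 1) :
    ‖v‖ ≤ 4 * ‖f v‖ := by
  have h := (h3 f hf.diff hf.inj 0 (mem_ball_self one_pos) v hv).1
  simpa [dd, bm, hf.zero, hf.one] using h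

lemma pow_mem {p : ℕ} (hp : 0 < p) {z : ℂ} (hz : z ∈ ball (0:ℂ) 1) : z ^ p ∈ ball (0:ℂ) 1 := by
  rw [mem_ball_zero_iff] at hz ⊢
  rw [norm_pow]
  exact pow_lt_one₀ (norm_nonneg _) hz hp.ne'

lemma deriv_rel {f F : ℂ → ℂ} {p : ℕ} (hf : DifferentiableOn ℂ f (ball 0 1))
    (hF : DifferentiableOn ℂ F (ball 0 1)) (hp : 0 < p)
    (h : ∀ z ∈ ball (0:ℂ) 1, F z ^ p = f (z ^ p)) {z : ℂ} (hz : z ∈ ball (0:ℂ) 1) :
    F z ^ (p - 1) * deriv F z = z ^ (p - 1) * deriv f (z ^ p) := by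
  have hzp := pow_mem hp hz
  have h1 := (hF.differentiableAt (isOpen_ball.mem_nhds hz)).hasDerivAt.pow p
  have h2 := (hf.differentiableAt (isOpen_ball.mem_nhds hzp)).hasDerivAt.comp z (hasDerivAt_pow p z)
  have h3 : (fun z => F z ^ p) =ᶠ[𝓝 z] fun z => f (z ^ p) := by
    filter_upwards [isOpen_ball.mem_nhds hz] with w hw using h w hw
  have h4 := h1.unique (h2.congr_of_eventuallyEq h3)
  have h5 : (p:ℂ) ≠ 0 := by exact_mod_cast hp.ne'
  apply mul_left_cancel₀ h5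
  linear_combination h4

lemma norm_deriv_le (h3 : S_TWO) {f F : ℂ → ℂ} {p : ℕ} (hp : 5 ≤ p) (hf : InS f)
    (hF : DifferentiableOn ℂ F (ball 0 1)) (h : ∀ z ∈ ball (0:ℂ) 1, F z ^ p = f (z ^ p)) {z : ℂ}
    (hz : z ∈ ball (0:ℂ) 1) (hz2 : 1 / 2 ≤ ‖z ^ p‖) :
    ‖deriv F z‖ ≤ 8 * (‖deriv f (z ^ p)‖ * ‖f (z ^ p)‖ ^ (-(4 / 5) : ℝ)) := by
  have hp0 : 0 < p := by omega
  have hb : 1 / 8 ≤ ‖f (z ^ p)‖ := by
    have := low_bound h3 hf (pow_mem hp0 hz)
    linarith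
  have hab : ‖F z‖ ^ p = ‖f (z ^ p)‖ := by rw [← norm_pow, h z hz]
  set a := ‖F z‖ with ha
  have ha0 : 0 < a := by
    rcases (norm_nonneg (F z)).eq_or_lt with h0 | h0
    · rw [← ha] at h0
      rw [← h0, zero_pow hp0.ne'] at hab
      linarith
    · exact h0
  have h1 : a ^ (p - 1) * ‖deriv F z‖ ≤ ‖deriv f (z ^ p)‖ := by
    have h2 := congrArg norm (deriv_rel hf.diff hF hp0 h hz)
    rw [norm_mul, norm_mul, norm_pow, norm_pow] at h2
    rw [ha, h2]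
    refine mul_le_of_le_one_left (norm_nonneg _) (pow_le_one₀ (norm_nonneg _) ?_)
    exact (mem_ball_zero_iff.1 hz).le
  have h2 : 1 ≤ a ^ (p - 1) * (8 * ‖f (z ^ p)‖ ^ (-(4 / 5) : ℝ)) := by
    have hp1 : ((p - 1 : ℕ) : ℝ) = (p : ℝ) - 1 := by
      rw [Nat.cast_sub (by omega)]
      simp
    have h4 : a ^ (p - 1) * ‖f (z ^ p)‖ ^ (-(4 / 5) : ℝ) = a ^ ((p : ℝ) / 5 - 1) := by
      rw [← hab, ← Real.rpow_natCast a p, ← Real.rpow_mul ha0.le, ← Real.rpow_natCast a (p - 1),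
        ← Real.rpow_add ha0, hp1]
      congr 1
      ring
    have hp5 : (5 : ℝ) ≤ p := by exact_mod_cast hp
    have h5 : 1 / 8 ≤ a ^ ((p : ℝ) / 5 - 1) := by
      rcases le_total 1 a with h6 | h6
      · have := Real.one_le_rpow h6 (show 0 ≤ (p : ℝ) / 5 - 1 by linarith)
        linarith
      · refine hb.trans ?_
        rw [← hab, ← Real.rpow_natCast a p]
        exact Real.rpow_le_rpow_of_exponent_ge ha0 h6 (by linarith)
    calc (1:ℝ) ≤ 8 * a ^ ((p : ℝ) / 5 - 1) := by linarith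
      _ = a ^ (p - 1) * (8 * ‖f (z ^ p)‖ ^ (-(4 / 5) : ℝ)) := by rw [← h4]; ring
  have h6 : 0 < a ^ (p - 1) := pow_pos ha0 _
  refine le_of_mul_le_mul_left ?_ h6
  calc a ^ (p - 1) * ‖deriv F z‖ ≤ ‖deriv f (z ^ p)‖ * 1 := by rw [mul_one]; exact h1
    _ ≤ ‖deriv f (z ^ p)‖ * (a ^ (p - 1) * (8 * ‖f (z ^ p)‖ ^ (-(4 / 5) : ℝ))) :=
        mul_le_mul_of_nonneg_left h2 (norm_nonneg _)
    _ = _ := by ring

lemma circle_mem {r : ℝ} (h0 : 0 ≤ r) (h1 : r < 1) (θ : ℝ) : circleMap 0 r θ ∈ ball (0:ℂ) 1 := by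
  rw [mem_ball_zero_iff, norm_circleMap_zero, abs_of_nonneg h0]
  exact h1

lemma circle_pow (r : ℝ) (p : ℕ) (θ : ℝ) :
    circleMap 0 r θ ^ p = circleMap 0 (r ^ p) ((p : ℝ) * θ) := by
  rw [circleMap, circleMap, zero_add, zero_add, mul_pow, ← Complex.exp_nat_mul]
  push_cast
  ring_nf

/-- the mean of a periodic function of `p θ` -/
lemma mean_mul {g : ℝ → ℝ} (hg : Continuous g) (hper : Function.Periodic g (2 * Real.pi)) {p : ℕ}
    (hp : 0 < p) : ∫ θ in (0:ℝ)..(2 * Real.pi), g ((p : ℝ) * θ) =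
      ∫ θ in (0:ℝ)..(2 * Real.pi), g θ := by
  have hp' : (p : ℝ) ≠ 0 := by exact_mod_cast hp.ne'
  rw [intervalIntegral.integral_comp_mul_left g hp', mul_zero]
  have h1 := hper.intervalIntegral_add_zsmul_eq (p : ℤ) 0 (fun a b => hg.intervalIntegrable a b)
  rw [zero_add, zero_add, zsmul_eq_mul, zsmul_eq_mul] at h1
  push_cast at h1
  rw [h1, smul_eq_mul, ← mul_assoc, inv_mul_cancel₀ hp', one_mul]

theorem t_COEFP (h1 : S_FIN2) (h2 : S_CAU) (h3 : S_TWO) : S_COEFP := by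
  obtain ⟨K, hK, h1⟩ := h1
  intro p hp
  have hp0 : 0 < p := by omega
  refine ⟨32 * K, fun f hf F hF hFf n hn => ?_⟩
  have hn0 : (0:ℝ) < n := by exact_mod_cast hn
  have hn1 : (1:ℝ) ≤ n := by exact_mod_cast hn
  -- the radii
  obtain ⟨r, hr⟩ : ∃ r : ℝ, r = 1 - 1 / (2 * n) := ⟨_, rfl⟩
  have hr1 : r < 1 := by
    have : 0 < 1 / (2 * (n : ℝ)) := by positivity
    linarith
  have hr2 : 1 / 2 ≤ r := by
    have : 1 / (2 * (n : ℝ)) ≤ 1 / 2 := by
      apply one_div_le_one_div_of_le <;> linarith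
    linarith
  obtain ⟨ρ, hρ⟩ : ∃ ρ : ℝ, ρ = r ^ ((p : ℝ)⁻¹) := ⟨_, rfl⟩
  have hρp : ρ ^ p = r := by
    rw [hρ, Real.rpow_inv_natCast_pow (by linarith) hp0.ne']
  have hρ0 : 0 < ρ := by
    rw [hρ]
    exact Real.rpow_pos_of_pos (by linarith) _
  have hρ1 : ρ < 1 := by
    rw [hρ]
    exact Real.rpow_lt_one (by linarith) hr1 (by positivity)
  -- the integral
  have hG := hF.deriv isOpen_ball
  have hcau := h2 (deriv F) hG (p * n) ρ hρ0 hρ1
  let Φ : ℝ → ℝ := fun θ => ‖deriv f (circleMap 0 r θ)‖ * ‖f (circleMap 0 r θ)‖ ^ (-(4 / 5) : ℝ)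
  have hcm : ∀ θ, circleMap 0 r θ ∈ ball (0:ℂ) 1 := circle_mem (by linarith) hr1
  have hΦ : Continuous Φ := by
    have e1 : Continuous fun θ => ‖deriv f (circleMap 0 r θ)‖ :=
      ((hf.diff.deriv isOpen_ball).continuousOn.comp_continuous (continuous_circleMap 0 r) hcm).norm
    have e2 : Continuous fun θ => ‖f (circleMap 0 r θ)‖ :=
      (hf.diff.continuousOn.comp_continuous (continuous_circleMap 0 r) hcm).norm
    refine e1.mul (e2.rpow_const fun θ => Or.inl ?_)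
    have := low_bound h3 hf (hcm θ)
    rw [norm_circleMap_zero, abs_of_nonneg (by linarith)] at this
    intro h0
    linarith
  have hper : Function.Periodic Φ (2 * Real.pi) := by
    intro θ
    simp only [Φ]
    rw [periodic_circleMap 0 r θ]
  have hle : ∫ θ in (0:ℝ)..(2 * Real.pi), ‖deriv F (circleMap 0 ρ θ)‖ ≤
      8 * ∫ θ in (0:ℝ)..(2 * Real.pi), Φ θ := by
    rw [← mean_mul hΦ hper hp0, ← intervalIntegral.integral_const_mul]
    refine intervalIntegral.integral_mono_on (by positivity) ?_ ?_ fun θ _ => ?_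
    · exact ((hG.continuousOn.comp_continuous (continuous_circleMap 0 ρ)
        (circle_mem hρ0.le hρ1)).norm).intervalIntegrable _ _
    · exact (continuous_const.mul (hΦ.comp (continuous_const.mul continuous_id))).intervalIntegrable
        _ _
    · have h5 := norm_deriv_le h3 hp hf hF hFf (circle_mem hρ0.le hρ1 θ) (by
        rw [circle_pow, hρp, norm_circleMap_zero, abs_of_nonneg (by linarith)]
        exact hr2)
      rw [circle_pow, hρp] at h5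
      exact h5
  have hfin := h1 f hf r hr2 hr1
  have h4 : ‖(((p * n).factorial : ℂ)⁻¹ * iteratedDeriv (p * n) (deriv F) 0)‖ * ρ ^ (p * n) ≤
      8 * (K * (1 - r) ^ (-(2 / 5) : ℝ)) := by
    refine hcau.trans ?_
    have h5 : 0 ≤ 1 / (2 * Real.pi) := by positivity
    calc (1 / (2 * Real.pi)) * ∫ θ in (0:ℝ)..(2 * Real.pi), ‖deriv F (circleMap 0 ρ θ)‖
        ≤ (1 / (2 * Real.pi)) * (8 * ∫ θ in (0:ℝ)..(2 * Real.pi), Φ θ) :=
          mul_le_mul_of_nonneg_left hle h5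
      _ = 8 * ((1 / (2 * Real.pi)) * ∫ θ in (0:ℝ)..(2 * Real.pi), Φ θ) := by ring
      _ ≤ _ := mul_le_mul_of_nonneg_left hfin (by norm_num)
  -- the power of the radius
  have h5 : 1 / 2 ≤ ρ ^ (p * n) := by
    rw [pow_mul, hρp, hr]
    have h6 := one_add_mul_le_pow (a := -(1 / (2 * (n : ℝ)))) (by
      have : 1 / (2 * (n : ℝ)) ≤ 1 / 2 := by
        apply one_div_le_one_div_of_le <;> linarith
      linarith) n
    have h7 : 1 + (n : ℝ) * -(1 / (2 * (n : ℝ))) = 1 / 2 := by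
      field_simp
      norm_num
    rw [h7] at h6
    rw [sub_eq_add_neg]
    exact h6
  have h6 : (1 - r) ^ (-(2 / 5) : ℝ) ≤ 2 * (n : ℝ) ^ (2 / 5 : ℝ) := by
    have e1 : 1 - r = (2 * (n : ℝ))⁻¹ := by rw [hr]; ring
    rw [e1, Real.inv_rpow (by positivity), ← Real.rpow_neg (by positivity), neg_neg,
      Real.mul_rpow (by norm_num) hn0.le]
    refine mul_le_mul_of_nonneg_right ?_ (by positivity)
    calc (2:ℝ) ^ (2 / 5 : ℝ) ≤ 2 ^ (1 : ℝ) :=
          Real.rpow_le_rpow_of_exponent_le (by norm_num) (by norm_num)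
      _ = 2 := Real.rpow_one 2
  set A := ‖(((p * n).factorial : ℂ)⁻¹ * iteratedDeriv (p * n) (deriv F) 0)‖ with hA
  have hA0 : 0 ≤ A := norm_nonneg _
  have h7 : A ≤ 32 * K * (n : ℝ) ^ (2 / 5 : ℝ) := by
    have e1 : A * (1 / 2) ≤ A * ρ ^ (p * n) := mul_le_mul_of_nonneg_left h5 hA0
    have e2 : 8 * (K * (1 - r) ^ (-(2 / 5) : ℝ)) ≤ 8 * (K * (2 * (n : ℝ) ^ (2 / 5 : ℝ))) :=
      mul_le_mul_of_nonneg_left (mul_le_mul_of_nonneg_left h6 hK) (by norm_num)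
    linarith
  have h8 : ‖(((p * n + 1).factorial : ℂ)⁻¹ * iteratedDeriv (p * n + 1) F 0)‖ =
      A / ((p * n + 1 : ℕ) : ℝ) := by
    rw [iteratedDeriv_succ', Nat.factorial_succ, hA, Nat.cast_mul, mul_inv, mul_assoc, norm_mul,
      norm_inv, Complex.norm_natCast, div_eq_inv_mul]
  rw [h8]
  have h9 : (n : ℝ) ≤ ((p * n + 1 : ℕ) : ℝ) := by
    have : n ≤ p * n + 1 := (Nat.le_mul_of_pos_left n hp0).trans (Nat.le_succ _)
    exact_mod_cast this
  calc A / ((p * n + 1 : ℕ) : ℝ) ≤ A / n := div_le_div_of_nonneg_left hA0 hn0 h9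
    _ ≤ (32 * K * (n : ℝ) ^ (2 / 5 : ℝ)) / n := div_le_div_of_nonneg_right h7 hn0.le
    _ = 32 * K * (n : ℝ) ^ (-(3 / 5) : ℝ) := by
      rw [mul_div_assoc]
      congr 1
      rw [div_eq_mul_inv, ← Real.rpow_neg_one, ← Real.rpow_add hn0]
      norm_num

/-- the case `p = 5` -/
theorem t_COEF (h1 : S_FIN2) (h2 : S_CAU) (h3 : S_TWO) : S_COEF :=
  t_COEFP h1 h2 h3 5 le_rfl

end V5helper86.SZ
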