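import Pool.Agent.V5helper73.SZ.StmD

/-! # Project SZ: from the class `Σ` to the class `S` -/

set_option autoImplicit false
open Complex Metric Set Filter Topology MeasureTheory
open V5helper73.SZ V5helper73.GC Pool.Agent.W677.Mar

namespace V5helper86.SZ

theorem t_TRS (h1 : S_OMS) : S_TRS := by
  intro ψ h S
  obtain ⟨w, hw⟩ := h1 ψ h S
  have hG := S.sg.G
  obtain ⟨hψ, hinj, -⟩ := S
  set Y : ℂ → ℂ := hat (fun z => ψ z / z) 1 with hY
  have hYd : DifferentiableOn ℂ Y (ball 0 1) := hG.diff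
  have hY0 : Y 0 = 1 := hG.one
  have hYv : ∀ v : ℂ, v ≠ 0 → Y v = v * ψ v⁻¹ := by
    intro v hv
    rw [hY, hat_ne _ _ hv]
    field_simp
  have hext : ∀ v ∈ ball (0:ℂ) 1, v ≠ 0 → 1 < ‖v⁻¹‖ := fun v hv hv0 => inv_ext hv hv0
  let f : ℂ → ℂ := fun v => v / (Y v - w * v)
  have hfv : ∀ v : ℂ, v ≠ 0 → f v = (ψ v⁻¹ - w)⁻¹ := by
    intro v hv
    simp only [f]
    rw [hYv v hv, show v * ψ v⁻¹ - w * v = v * (ψ v⁻¹ - w) by ring, div_mul_eq_div_div,
      div_self hv, one_div]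
  have hne : ∀ v ∈ ball (0:ℂ) 1, v ≠ 0 → ψ v⁻¹ - w ≠ 0 := fun v hv hv0 =>
    sub_ne_zero.2 (hw _ (hext v hv hv0))
  have hf0 : f 0 = 0 := by simp [f]
  have hden : ∀ v ∈ ball (0:ℂ) 1, Y v - w * v ≠ 0 := by
    intro v hv
    by_cases hv0 : v = 0
    · rw [hv0, hY0, mul_zero, sub_zero]
      exact one_ne_zero
    · rw [hYv v hv0, show v * ψ v⁻¹ - w * v = v * (ψ v⁻¹ - w) by ring]
      exact mul_ne_zero hv0 (hne v hv hv0)
  refine ⟨f, ⟨?_, ?_, hf0, ?_⟩, ?_⟩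
  · exact differentiableOn_id.div (hYd.sub (differentiableOn_id.const_mul w)) hden
  · intro u hu v hv huv
    by_cases hu0 : u = 0
    · by_cases hv0 : v = 0
      · rw [hu0, hv0]
      · exfalso
        rw [hu0, hf0, hfv v hv0] at huv
        exact inv_ne_zero (hne v hv hv0) huv.symm
    · by_cases hv0 : v = 0
      · exfalso
        rw [hv0, hf0, hfv u hu0] at huv
        exact inv_ne_zero (hne u hu hu0) huv
      · rw [hfv u hu0, hfv v hv0] at huv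
        have h3 : ψ u⁻¹ = ψ v⁻¹ := by
          have := inv_injective huv
          linear_combination this
        exact inv_injective (hinj (hext u hu hu0) (hext v hv hv0) h3)
  · have e1 : HasDerivAt Y (deriv Y 0) 0 :=
      (hYd.differentiableAt (isOpen_ball.mem_nhds (mem_ball_self one_pos))).hasDerivAt
    have e2 : HasDerivAt (fun v : ℂ => Y v - w * v) (deriv Y 0 - w * 1) 0 :=
      e1.sub ((hasDerivAt_id (0:ℂ)).const_mul w)
    have e3 : HasDerivAt f ((1 * (Y 0 - w * 0) - 0 * (deriv Y 0 - w * 1)) / (Y 0 - w * 0) ^ 2) 0 :=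
      (hasDerivAt_id (0:ℂ)).div e2 (hden 0 (mem_ball_self one_pos))
    rw [e3.deriv, hY0]
    simp
  · intro v hv0 hv1
    have hv : v ∈ ball (0:ℂ) 1 := mem_ball_zero_iff.2 hv1
    have e1 : HasDerivAt ψ (deriv ψ v⁻¹) v⁻¹ :=
      (hψ.differentiableAt (isOpen_ext.mem_nhds (hext v hv hv0))).hasDerivAt
    have e2 : HasDerivAt (fun v : ℂ => ψ v⁻¹ - w) (deriv ψ v⁻¹ * -(v ^ 2)⁻¹) v :=
      (e1.comp v (hasDerivAt_inv hv0)).sub_const w
    have e3 : HasDerivAt (fun v : ℂ => (ψ v⁻¹ - w)⁻¹)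
        (-(deriv ψ v⁻¹ * -(v ^ 2)⁻¹) / (ψ v⁻¹ - w) ^ 2) v := e2.inv (hne v hv hv0)
    have e4 : f =ᶠ[𝓝 v] fun v : ℂ => (ψ v⁻¹ - w)⁻¹ := by
      filter_upwards [isOpen_ne.mem_nhds hv0] with u hu using hfv u hu
    have e5 := (e3.congr_of_eventuallyEq e4).deriv
    have h3 := hne v hv hv0
    have h4 : ‖ψ v⁻¹ - w‖ ≠ 0 := norm_ne_zero_iff.2 h3
    have h5 : ‖v‖ ≠ 0 := norm_ne_zero_iff.2 hv0
    rw [e5, hfv v hv0, norm_div, norm_neg, norm_mul, norm_neg, norm_inv, norm_inv, norm_pow, norm_pow,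
      Real.rpow_neg (by positivity), Real.rpow_two]
    generalize ‖ψ v⁻¹ - w‖ = a at h4 ⊢
    generalize ‖deriv ψ v⁻¹‖ = b
    generalize ‖v‖ = c at h5 ⊢
    field_simp

end V5helper86.SZ
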